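import Mathlib
import Pool.Agent.H39.PP3

set_option autoImplicit false

namespace Pool.Agent.Results.MP_6a90e0_al.ProdCex
open Pool.Agent.H39.PP in
theorem result :
    (∃ (G H : Type) (_ : Group G) (_ : Group H) (_ : TopologicalSpace G) (_ : TopologicalSpace H),
      ContinuousMul G ∧ ContinuousMul H ∧
      (∃ D : Set G, Dense D ∧ ∀ B ⊆ D, B.Infinite →
        ∃ x, ∀ O ∈ nhds x, (O ∩ B).Infinite) ∧
      (∃ D : Set H, Dense D ∧ ∀ B ⊆ D, B.Infinite →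
        ∃ x, ∀ O ∈ nhds x, (O ∩ B).Infinite) ∧
      ¬ (∃ D : Set (G × H), Dense D ∧ ∀ B ⊆ D, B.Infinite →
        ∃ x, ∀ O ∈ nhds x, (O ∩ B).Infinite)) ∧
    (∀ (J : Type) [Nontrivial J], ∃ (G : J → Type) (_ : ∀ j, Group (G j))
      (_ : ∀ j, TopologicalSpace (G j)),
      (∀ j, ContinuousMul (G j) ∧
      (∃ D : Set (G j), Dense D ∧ ∀ B ⊆ D, B.Infinite →
        ∃ x, ∀ O ∈ nhds x, (O ∩ B).Infinite)) ∧
      ¬ (∃ D : Set (∀ j, G j), Dense D ∧ ∀ B ⊆ D, B.Infinite →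
        ∃ x, ∀ O ∈ nhds x, (O ∩ B).Infinite)) := by
  refine ⟨⟨H true, H false, inferInstance, inferInstance, inferInstance, inferInstance,
    inferInstance, inferInstance, ⟨Set.univ, dense_univ, fun B _ => cc1 true B⟩, ⟨Set.univ, dense_univ, fun B _ => cc1 false B⟩,
    not_pra pr pr_c pr_s⟩, fun J _ => ?_⟩
  obtain ⟨k, π, a, b, c⟩ := fam J
  exact ⟨fun j => H (k j), inferInstance, inferInstance,
    fun j => ⟨inferInstance, ⟨Set.univ, dense_univ, fun B _ => cc1 (k j) B⟩⟩, not_pra π a b⟩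

end Pool.Agent.Results.MP_6a90e0_al.ProdCex
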